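import Pool.Agent.U79.GY.Stm
import Pool.Agent.TH838.PS.Quad

/-!
# Project GY, package DEN: the density of the split primes
-/

set_option autoImplicit false

open scoped Classical

namespace Pool.Agent.U454.GY

open Finset hiding ext
open Pool.Agent.U79.GY

/-- the reduced residues -/
def U (Q : ℕ) : Finset ℕ := (range Q).filter fun r => Nat.Coprime r Q

theorem card_U (Q : ℕ) : (U Q).card = Nat.totient Q := by
  unfold U
  rw [Nat.totient]
  congr 1
  apply Finset.filter_congr
  intro r _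
  exact Nat.coprime_comm

theorem odd_of_coprime {r Q : ℕ} (h2 : 2 ∣ Q) (h : Nat.Coprime r Q) : Odd r :=
  Nat.Coprime.odd_of_right (Nat.Coprime.coprime_dvd_right h2 h)

theorem sum_zero (Q : ℕ) (hQ : 0 < Q) (h2 : 2 ∣ Q) (f : ℕ → ℤ)
    (hper : ∀ a b, Odd a → Odd b → a ≡ b [MOD Q] → f a = f b)
    (hmul : ∀ a b, Odd a → Odd b → f (a * b) = f a * f b) (n : ℕ) (hn : Nat.Coprime n Q)
    (hfn : f n = -1) : ∑ r ∈ U Q, f r = 0 := by
  set g : ℕ → ℕ := fun r => (n * r) % Q with hg
  have hgc : ∀ r, Nat.Coprime r Q → Nat.Coprime (g r) Q := by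
    intro r hr
    have h1 : Nat.Coprime (n * r) Q := Nat.Coprime.mul_left hn hr
    exact (Nat.ModEq.gcd_eq (Nat.mod_modEq (n * r) Q)).trans h1
  have hinj : Set.InjOn g (U Q : Set ℕ) := by
    intro a ha b hb hab
    have ha' := Finset.mem_filter.1 (Finset.mem_coe.1 ha)
    have hb' := Finset.mem_filter.1 (Finset.mem_coe.1 hb)
    have h1 : n * a ≡ n * b [MOD Q] := hab
    have h2 : a ≡ b [MOD Q] := Nat.ModEq.cancel_left_of_coprime (by rw [Nat.gcd_comm]; exact hn) h1
    exact Nat.ModEq.eq_of_lt_of_lt h2 (Finset.mem_range.1 ha'.1) (Finset.mem_range.1 hb'.1)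
  have himg : (U Q).image g = U Q := by
    apply Finset.eq_of_subset_of_card_le
    · intro x hx
      obtain ⟨r, hr, rfl⟩ := Finset.mem_image.1 hx
      have hr' := Finset.mem_filter.1 hr
      exact Finset.mem_filter.2 ⟨Finset.mem_range.2 (Nat.mod_lt _ hQ), hgc r hr'.2⟩
    · rw [Finset.card_image_of_injOn hinj]
  have hsum : ∑ r ∈ U Q, f r = ∑ r ∈ U Q, f (g r) := by
    conv_lhs => rw [← himg]
    rw [Finset.sum_image hinj]
  have hneg : ∀ r ∈ U Q, f (g r) = - f r := by
    intro r hr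
    have hr' := (Finset.mem_filter.1 hr).2
    have hro : Odd r := odd_of_coprime h2 hr'
    have hno : Odd n := odd_of_coprime h2 hn
    rw [hper (g r) (n * r) (odd_of_coprime h2 (hgc r hr')) (hno.mul hro) (Nat.mod_modEq _ _),
      hmul n r hno hro, hfn]
    ring
  rw [Finset.sum_congr rfl hneg, Finset.sum_neg_distrib] at hsum
  linarith

theorem jac_mul (d : ℤ) (a b : ℕ) (ha : Odd a) (hb : Odd b) :
    jacobiSym d (a * b) = jacobiSym d a * jacobiSym d b :=
  jacobiSym.mul_right' d (by rintro rfl; exact absurd ha (by decide))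
    (by rintro rfl; exact absurd hb (by decide))

theorem t_DEN : S_DEN := by
  intro b c M hM hb hc
  have hQ : 0 < 4 * M := by have := hM.pos; omega
  have h2 : 2 ∣ 4 * M := ⟨2 * M, by ring⟩
  have hb0 : b ≠ 0 := by rintro rfl; exact hb ⟨0, by norm_num⟩
  have hc0 : c ≠ 0 := by rintro rfl; exact hc ⟨0, by norm_num⟩
  have hbM : 4 * b.natAbs ∣ 4 * M := Nat.mul_dvd_mul_left 4 hM.hb
  have hcM : 4 * c.natAbs ∣ 4 * M := Nat.mul_dvd_mul_left 4 hM.hc
  have hpb : ∀ x y : ℕ, Odd x → Odd y → x ≡ y [MOD 4 * M] → jacobiSym b x = jacobiSym b y :=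
    fun x y hx hy h => Pool.Agent.TH838.PS.jac_of_modEq b hx hy hbM h
  have hpc : ∀ x y : ℕ, Odd x → Odd y → x ≡ y [MOD 4 * M] → jacobiSym c x = jacobiSym c y :=
    fun x y hx hy h => Pool.Agent.TH838.PS.jac_of_modEq c hx hy hcM h
  have hcop : ∀ p : ℕ, 4 * M < p → p.Prime → Nat.Coprime p (4 * M) := by
    intro p hp hpp
    rw [Nat.Prime.coprime_iff_not_dvd hpp]
    intro h
    exact absurd (Nat.le_of_dvd hQ h) (not_le.2 hp)
  have hsb : ∑ r ∈ U (4 * M), jacobiSym b r = 0 := by
    obtain ⟨p, hp, hpp, hj⟩ := Pool.Agent.TH838.PS.one_neg b hb (4 * M)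
    exact sum_zero (4 * M) hQ h2 (fun r => jacobiSym b r) hpb (fun x y hx hy => jac_mul b x y hx hy)
      p (hcop p hp hpp) hj
  have hsc : ∑ r ∈ U (4 * M), jacobiSym c r = 0 := by
    obtain ⟨p, hp, hpp, hj⟩ := Pool.Agent.TH838.PS.one_neg c hc (4 * M)
    exact sum_zero (4 * M) hQ h2 (fun r => jacobiSym c r) hpc (fun x y hx hy => jac_mul c x y hx hy)
      p (hcop p hp hpp) hj
  -- values
  have hval : ∀ d : ℤ, d ≠ 0 → d.natAbs ∣ M → ∀ r ∈ U (4 * M), jacobiSym d r = 1 ∨ jacobiSym d r = -1 := by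
    intro d hd hdM r hr
    have hr' := (Finset.mem_filter.1 hr).2
    have hg : Int.gcd d r = 1 := by
      have h1 : Nat.Coprime r (d.natAbs) :=
        Nat.Coprime.coprime_dvd_right (hdM.trans (Dvd.intro_left 4 rfl)) hr'
      rw [Int.gcd_eq_natAbs, Int.natAbs_natCast]
      exact Nat.coprime_comm.1 h1
    exact jacobiSym.eq_one_or_neg_one hg
  -- the cardinality
  have hcard : (4 : ℤ) * ((cfg b c M).A.card : ℤ)
      = (Nat.totient (4 * M) : ℤ) + ∑ r ∈ U (4 * M), jacobiSym b r * jacobiSym c r := by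
    have hA : (cfg b c M).A = (U (4 * M)).filter
        fun r => jacobiSym b r = 1 ∧ jacobiSym c r = 1 := by
      unfold cfg U
      rw [Finset.filter_filter]
    have h1 : ∀ r ∈ U (4 * M), (4 : ℤ) * (if jacobiSym b r = 1 ∧ jacobiSym c r = 1 then 1 else 0)
        = 1 + jacobiSym b r + jacobiSym c r + jacobiSym b r * jacobiSym c r := by
      intro r hr
      rcases hval b hb0 hM.hb r hr with h | h <;> rcases hval c hc0 hM.hc r hr with h' | h' <;>
        rw [h, h'] <;> norm_num
    rw [hA, Finset.card_filter]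
    push_cast
    rw [Finset.mul_sum, Finset.sum_congr rfl h1, Finset.sum_add_distrib, Finset.sum_add_distrib,
      Finset.sum_add_distrib, hsb, hsc, ← card_U]
    simp
  have hphi : (0 : ℝ) < (Nat.totient (4 * M) : ℝ) := by
    exact_mod_cast Nat.totient_pos.2 hQ
  have hQ' : (cfg b c M).Q = 4 * M := rfl
  constructor
  · intro hbc
    have hs : ∑ r ∈ U (4 * M), jacobiSym b r * jacobiSym c r = 0 := by
      obtain ⟨p, hp, hpp, hj⟩ := Pool.Agent.TH838.PS.one_neg (b * c) hbc (4 * M)
      refine sum_zero (4 * M) hQ h2 (fun r => jacobiSym b r * jacobiSym c r) ?_ ?_ p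
        (hcop p hp hpp) ?_
      · intro x y hx hy h
        simp only [hpb x y hx hy h, hpc x y hx hy h]
      · intro x y hx hy
        simp only [jac_mul b x y hx hy, jac_mul c x y hx hy]
        ring
      · show jacobiSym b p * jacobiSym c p = -1
        rw [← jacobiSym.mul_left]
        exact hj
    rw [hs, add_zero] at hcard
    have h4 : (4 : ℝ) * ((cfg b c M).A.card : ℝ) = (Nat.totient (4 * M) : ℝ) := by
      exact_mod_cast hcard
    unfold da
    rw [hQ', div_eq_iff hphi.ne']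
    linarith
  · rintro ⟨s, hs⟩
    have hone : ∀ r ∈ U (4 * M), jacobiSym b r * jacobiSym c r = 1 := by
      intro r hr
      rw [← jacobiSym.mul_left]
      have h1 : jacobiSym (b * c) r = 1 ∨ jacobiSym (b * c) r = -1 := by
        rw [jacobiSym.mul_left]
        rcases hval b hb0 hM.hb r hr with h | h <;> rcases hval c hc0 hM.hc r hr with h' | h' <;>
          rw [h, h'] <;> norm_num
      have h2 : jacobiSym (b * c) r = jacobiSym s r * jacobiSym s r := by
        rw [hs, jacobiSym.mul_left]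
      rcases h1 with h1 | h1
      · exact h1
      · rw [h2] at h1
        nlinarith [mul_self_nonneg (jacobiSym s r)]
    rw [Finset.sum_congr rfl hone] at hcard
    simp only [Finset.sum_const, card_U] at hcard
    have h4 : (4 : ℝ) * ((cfg b c M).A.card : ℝ) = 2 * (Nat.totient (4 * M) : ℝ) := by
      have h5 : (4 : ℤ) * ((cfg b c M).A.card : ℤ) = 2 * (Nat.totient (4 * M) : ℤ) := by
        rw [hcard]; simp; ring
      exact_mod_cast h5
    unfold da
    rw [hQ', div_eq_iff hphi.ne']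
    linarith

end Pool.Agent.U454.GY
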